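import Pool.Agent.Helper50.BL.Stmts
import Pool.Agent.Helper50.BL.Base

namespace Pool.Agent.Helper50.BL

open Finset
open scoped Classical

lemma d2_geo (G : Finset ℤ) : ∀ L : ℤ, (∀ l ∈ G, l ≤ L) →
    ∑ l ∈ G, (2 : ℝ) ^ l < (2 : ℝ) ^ (L + 1) := by
  refine Finset.induction_on_max G ?_ ?_
  · intro L _
    rw [Finset.sum_empty]
    exact zpow_pos two_pos _
  · intro a s hs ih L hL
    have hna : a ∉ s := fun h => lt_irrefl _ (hs a h)
    rw [Finset.sum_insert hna]
    have h1 := ih (a - 1) (fun l hl => by have := hs l hl; omega)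
    rw [show a - 1 + 1 = a by ring] at h1
    have h2 : (2 : ℝ) ^ (a + 1) ≤ (2 : ℝ) ^ (L + 1) := by
      apply zpow_le_zpow_right₀ (by norm_num)
      have := hL a (Finset.mem_insert_self a s)
      omega
    have h3 : (2 : ℝ) ^ (a + 1) = 2 ^ a + 2 ^ a := by
      rw [zpow_add₀ (by norm_num : (2 : ℝ) ≠ 0)]
      norm_num
      ring
    linarith

theorem st_D2 : ST_D2 := by
  intro a z G ha hz
  have h1 : ∑ l ∈ G, (2 : ℝ) ^ l * (if a * (2 : ℝ) ^ l ≤ z then (1 : ℝ) else 0)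
      = ∑ l ∈ G.filter (fun l => a * (2 : ℝ) ^ l ≤ z), (2 : ℝ) ^ l := by
    rw [Finset.sum_filter]
    apply Finset.sum_congr rfl
    intro l _
    split_ifs
    · rw [mul_one]
    · rw [mul_zero]
  rw [h1]
  set G' := G.filter (fun l => a * (2 : ℝ) ^ l ≤ z) with hG'
  rcases G'.eq_empty_or_nonempty with h | h
  · rw [h, Finset.sum_empty]
    positivity
  · have h2 := d2_geo G' (G'.max' h) (fun l hl => Finset.le_max' G' l hl)
    have h3 : a * (2 : ℝ) ^ (G'.max' h) ≤ z := by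
      exact (Finset.mem_filter.1 (Finset.max'_mem G' h)).2
    rw [zpow_add₀ (by norm_num : (2 : ℝ) ≠ 0), zpow_one] at h2
    rw [le_div_iff₀ ha]
    nlinarith

end Pool.Agent.Helper50.BL
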